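import Pool.Agent.H37.CNU.Stmts

/-!
# Board `cnu`, row UNK: the data `Su` define a cover
-/

set_option autoImplicit false

namespace Pool.CND

open Finset Matrix

/-- `u_0`, `u_1`, `u_2` are independent over `F` -/
theorem unk_indep {F K : Type} [Field F] [Field K] (φ : F →+* K) {p f q : ℕ} (hp : p.Prime)
    [CharP K p] (hq : q = p ^ f) (hF : ∀ a : F, a ^ (q ^ 2) = a) (u0 u1 u2 : K)
    (h3 : u0 * u2 ^ (q ^ 3) + u2 * u0 ^ (q ^ 3) - u1 ^ (q ^ 3 + 1) = 1)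
    (c01 : u0 * u1 ^ (q ^ 2) - u1 * u0 ^ (q ^ 2) = u0 ^ q)
    (c12 : u1 * u2 ^ (q ^ 2) - u2 * u1 ^ (q ^ 2) = u2 ^ q)
    (c20 : u2 * u0 ^ (q ^ 2) - u0 * u2 ^ (q ^ 2) = -u1 ^ q) (α β γ : F)
    (h0 : φ α * u0 + φ β * u1 + φ γ * u2 = 0) : α = 0 ∧ β = 0 ∧ γ = 0 := by
  have : Fact p.Prime := ⟨hp⟩
  have hq0 : q ≠ 0 := by
    rw [hq]
    exact pow_ne_zero _ hp.ne_zero
  have hadd : ∀ a b : K, (a + b) ^ q = a ^ q + b ^ q := fun a b => by
    rw [hq]; exact add_pow_char_pow a b p f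
  have hsub : ∀ a b : K, (a - b) ^ q = a ^ q - b ^ q := fun a b => by
    rw [hq]; exact sub_pow_char_pow a b f
  have hadd2 : ∀ a b : K, (a + b) ^ (q ^ 2) = a ^ (q ^ 2) + b ^ (q ^ 2) := fun a b => by
    rw [pow_two, pow_mul, hadd, hadd, ← pow_mul, ← pow_mul]
  have hA : ∀ a : F, (φ a) ^ (q ^ 2) = φ a := fun a => by rw [← map_pow, hF]
  have hz : ∀ a b c : K, φ α * a + φ β * b + φ γ * c = 0 →
      φ α * a ^ (q ^ 2) + φ β * b ^ (q ^ 2) + φ γ * c ^ (q ^ 2) = 0 := by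
    intro a b c h
    have h1 : (φ α * a + φ β * b + φ γ * c) ^ (q ^ 2) = 0 := by
      rw [h]; exact zero_pow (pow_ne_zero _ hq0)
    rw [hadd2, hadd2, mul_pow, mul_pow, mul_pow, hA, hA, hA] at h1
    exact h1
  have h2 := hz _ _ _ h0
  have h4 := hz _ _ _ h2
  have e4 : ∀ a : K, (a ^ (q ^ 2)) ^ (q ^ 2) = a ^ (q ^ 4) := fun a => by
    rw [← pow_mul, ← pow_add]
  rw [e4, e4, e4] at h4
  have h3q : u0 ^ q * u2 ^ (q ^ 4) + u2 ^ q * u0 ^ (q ^ 4) - u1 ^ q * u1 ^ (q ^ 4) = 1 := by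
    have h5 : (u0 * u2 ^ (q ^ 3) + u2 * u0 ^ (q ^ 3) - u1 ^ (q ^ 3 + 1)) ^ q = 1 := by
      rw [h3, one_pow]
    have e3 : ∀ a : K, (a ^ (q ^ 3)) ^ q = a ^ (q ^ 4) := fun a => by
      rw [← pow_mul, ← pow_succ]
    rw [hsub, hadd, mul_pow, mul_pow, e3, e3, pow_succ u1, mul_pow, e3] at h5
    linear_combination h5
  have E1 : φ β * u0 ^ q + φ γ * u1 ^ q = 0 := by
    linear_combination -(u0 ^ (q ^ 2)) * h0 + u0 * h2 - φ β * c01 + φ γ * c20
  have E2 : φ α * u0 ^ q - φ γ * u2 ^ q = 0 := by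
    linear_combination (u1 ^ (q ^ 2)) * h0 - u1 * h2 - φ α * c01 + φ γ * c12
  have E3 : φ α * u1 ^ q + φ β * u2 ^ q = 0 := by
    linear_combination (u2 ^ (q ^ 2)) * h0 - u2 * h2 + φ α * c20 - φ β * c12
  refine ⟨?_, ?_, ?_⟩
  · apply φ.injective
    rw [map_zero]
    linear_combination -(φ α) * h3q + u2 ^ (q ^ 4) * E2 - u1 ^ (q ^ 4) * E3 + u2 ^ q * h4
  · apply φ.injective
    rw [map_zero]
    linear_combination -(φ β) * h3q + u2 ^ (q ^ 4) * E1 + u0 ^ (q ^ 4) * E3 - u1 ^ q * h4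
  · apply φ.injective
    rw [map_zero]
    linear_combination -(φ γ) * h3q - u0 ^ (q ^ 4) * E2 - u1 ^ (q ^ 4) * E1 + u0 ^ q * h4

/-- a root of the equation is integral if `t` is -/
theorem unk_int {k L : Type} [Field k] [Field L] [Algebra k L] (P : Place k L) {x t : L}
    {q : ℕ} (hq : 2 ≤ q) (ht : P.Ge t 0)
    (h : x ^ (q ^ 6) - t ^ q * x ^ (q ^ 4) + t * x ^ (q ^ 2) - x = 0) : P.Ge x 0 := by
  by_contra hx
  obtain ⟨hx0, hxlt⟩ := P.not_ge.1 hx
  have hpw0 : ∀ n : ℕ, P.Ge (t ^ n) 0 := by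
    intro n
    induction n with
    | zero => rw [pow_zero]; exact Or.inr (by rw [P.ord_one])
    | succ n ih =>
      rw [pow_succ]
      have := P.ge_mul ih ht
      rwa [add_zero] at this
  have hmono : ∀ a b : ℕ, a ≤ b → (b : ℤ) * P.ord x ≤ (a : ℤ) * P.ord x := by
    intro a b hab
    have : (a : ℤ) ≤ (b : ℤ) := by exact_mod_cast hab
    nlinarith
  have h24 : q ^ 2 ≤ q ^ 4 := Nat.pow_le_pow_right (by omega) (by norm_num)
  have h14 : 1 ≤ q ^ 4 := Nat.one_le_pow _ _ (by omega)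
  have h46 : q ^ 4 < q ^ 6 := Nat.pow_lt_pow_right (by omega) (by norm_num)
  have g1 : P.Ge (t ^ q * x ^ (q ^ 4)) ((q ^ 4 : ℕ) * P.ord x) := by
    have := P.ge_mul (hpw0 q) (Or.inr (by rw [P.ord_pow hx0]) :
      P.Ge (x ^ (q ^ 4)) ((q ^ 4 : ℕ) * P.ord x))
    rwa [zero_add] at this
  have g2 : P.Ge (t * x ^ (q ^ 2)) ((q ^ 4 : ℕ) * P.ord x) := by
    have := P.ge_mul ht (Or.inr (by rw [P.ord_pow hx0]; exact hmono _ _ h24) :
      P.Ge (x ^ (q ^ 2)) ((q ^ 4 : ℕ) * P.ord x))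
    rwa [zero_add] at this
  have g3 : P.Ge x ((q ^ 4 : ℕ) * P.ord x) := by
    refine Or.inr ?_
    have := hmono 1 (q ^ 4) h14
    rwa [Nat.cast_one, one_mul] at this
  have e : x ^ (q ^ 6) = t ^ q * x ^ (q ^ 4) - t * x ^ (q ^ 2) + x := by
    linear_combination h
  have g4 : P.Ge (x ^ (q ^ 6)) ((q ^ 4 : ℕ) * P.ord x) := by
    rw [e]
    exact P.ge_add (P.ge_sub g1 g2) g3
  have g5 := (P.ge_iff (pow_ne_zero _ hx0) _).1 g4
  rw [P.ord_pow hx0] at g5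
  have h46' : ((q ^ 4 : ℕ) : ℤ) + 1 ≤ ((q ^ 6 : ℕ) : ℤ) := by exact_mod_cast h46
  nlinarith

/-- `z` is integral with residue `c` -/
def UnkR {k L : Type} [Field k] [Field L] [Algebra k L] (Q : Place k L) (z : L) (c : k) : Prop :=
  Q.Ge z 0 ∧ Q.Ge (z - algebraMap k L c) 1

section

variable {k L : Type} [Field k] [Field L] [Algebra k L] {Q : Place k L}

theorem unk_const {c : k} (h : Q.Ge (algebraMap k L c) 1) : c = 0 := by
  by_contra hc0
  have h4 : algebraMap k L c ≠ 0 := by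
    rw [Ne, map_eq_zero]
    exact hc0
  have h5 := (Q.ge_iff h4 1).1 h
  rw [Q.ord_const c hc0] at h5
  omega

theorem UnkR.uniq {z : L} {c d : k} (h1 : UnkR Q z c) (h2 : UnkR Q z d) : c = d := by
  have h3 := Q.ge_sub h2.2 h1.2
  have h4 : algebraMap k L (c - d) = z - algebraMap k L d - (z - algebraMap k L c) := by
    rw [map_sub]
    ring
  rw [← h4] at h3
  exact sub_eq_zero.1 (unk_const h3)

theorem UnkR.ex {z : L} (hz : Q.Ge z 0) : ∃ c, UnkR Q z c := by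
  by_cases hz0 : z = 0
  · exact ⟨0, hz, Or.inl (by rw [hz0, map_zero, sub_zero])⟩
  · obtain ⟨c, hc⟩ := Q.residue z hz0 ((Q.ge_iff hz0 0).1 hz)
    refine ⟨c, hz, ?_⟩
    rcases hc with hc | hc
    · exact Or.inl (by rw [← hc, sub_self])
    · exact Or.inr (by omega)

theorem UnkR.cst (c : k) : UnkR Q (algebraMap k L c) c :=
  ⟨Q.ge_const c, Or.inl (sub_self _)⟩

theorem UnkR.mul {z w : L} {c d : k} (h1 : UnkR Q z c) (h2 : UnkR Q w d) :
    UnkR Q (z * w) (c * d) := by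
  constructor
  · have := Q.ge_mul h1.1 h2.1
    rwa [add_zero] at this
  · have e : z * w - algebraMap k L (c * d) =
        z * (w - algebraMap k L d) + (z - algebraMap k L c) * algebraMap k L d := by
      rw [map_mul]; ring
    rw [e]
    refine Q.ge_add ?_ ?_
    · have := Q.ge_mul h1.1 h2.2
      rwa [zero_add] at this
    · have := Q.ge_mul h1.2 (Q.ge_const d)
      rwa [add_zero] at this

theorem UnkR.add {z w : L} {c d : k} (h1 : UnkR Q z c) (h2 : UnkR Q w d) :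
    UnkR Q (z + w) (c + d) := by
  refine ⟨Q.ge_add h1.1 h2.1, ?_⟩
  have e : z + w - algebraMap k L (c + d) = (z - algebraMap k L c) + (w - algebraMap k L d) := by
    rw [map_add]; ring
  rw [e]
  exact Q.ge_add h1.2 h2.2

theorem UnkR.sub {z w : L} {c d : k} (h1 : UnkR Q z c) (h2 : UnkR Q w d) :
    UnkR Q (z - w) (c - d) := by
  refine ⟨Q.ge_sub h1.1 h2.1, ?_⟩
  have e : z - w - algebraMap k L (c - d) = (z - algebraMap k L c) - (w - algebraMap k L d) := by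
    rw [map_sub]; ring
  rw [e]
  exact Q.ge_sub h1.2 h2.2

theorem UnkR.neg {z : L} {c : k} (h1 : UnkR Q z c) : UnkR Q (-z) (-c) := by
  refine ⟨Q.ge_neg h1.1, ?_⟩
  have e : -z - algebraMap k L (-c) = -(z - algebraMap k L c) := by
    rw [map_neg]; ring
  rw [e]
  exact Q.ge_neg h1.2

theorem UnkR.one : UnkR Q (1 : L) 1 := by
  have := UnkR.cst (Q := Q) (1 : k)
  rwa [map_one] at this

theorem UnkR.pow {z : L} {c : k} (h1 : UnkR Q z c) (n : ℕ) : UnkR Q (z ^ n) (c ^ n) := by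
  induction n with
  | zero => rw [pow_zero, pow_zero]; exact UnkR.one
  | succ n ih =>
    rw [pow_succ, pow_succ]
    exact ih.mul h1

theorem UnkR.fix {z : L} {c : k} {g : L ≃ₐ[k] L} (hg : Fixes Q g) (h1 : UnkR Q z c) :
    UnkR Q (g z) c := by
  refine ⟨hg.ge h1.1, ?_⟩
  have := hg.ge h1.2
  rwa [map_sub, AlgEquiv.commutes] at this

end

theorem unk_thm : S_UNK := by
  intro p k F L _ _ _ _ _ f q σ t X ρ P hp hc hf hq hFq hσ C
  have hq2 : 2 ≤ q := by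
    rw [hq]
    calc 2 ≤ p := hp.two_le
      _ = p ^ 1 := (pow_one p).symm
      _ ≤ p ^ f := Nat.pow_le_pow_right hp.pos hf
  have hcL : CharP L p := charP_of_injective_algebraMap (algebraMap k L).injective p
  have hfin : Finite F := Nat.finite_of_card_ne_zero (by rw [hFq]; positivity)
  have hpow : ∀ a : F, a ^ (q ^ 2) = a := by
    intro a
    have := Fintype.ofFinite F
    rw [← hFq, Nat.card_eq_fintype_card]
    exact FiniteField.pow_card a
  have hR := C.rels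
  -- a matrix whose columns satisfy the relations of the unit matrix
  have hone : ∀ (K : Type) [Field K] [CharP K p] (φ : F →+* K) (u : Fin 3 → K)
      (_ : u 0 * u 2 ^ (q ^ 3) + u 2 * u 0 ^ (q ^ 3) - u 1 ^ (q ^ 3 + 1) = 1)
      (_ : u 0 * u 1 ^ (q ^ 2) - u 1 * u 0 ^ (q ^ 2) = u 0 ^ q)
      (_ : u 1 * u 2 ^ (q ^ 2) - u 2 * u 1 ^ (q ^ 2) = u 2 ^ q)
      (_ : u 2 * u 0 ^ (q ^ 2) - u 0 * u 2 ^ (q ^ 2) = -u 1 ^ q) (g : SU3 σ)
      (_ : ∀ i, ∑ j, φ (g.1.1 j i) * u j = u i), g = 1 := by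
    intro K _ _ φ u h3 c01 c12 c20 g hg
    have key : ∀ α β γ : F, φ α * u 0 + φ β * u 1 + φ γ * u 2 = 0 → α = 0 ∧ β = 0 ∧ γ = 0 :=
      fun α β γ h => unk_indep φ hp hq hpow _ _ _ h3 c01 c12 c20 α β γ h
    have h0 := hg 0
    have h1 := hg 1
    have h2 := hg 2
    rw [Fin.sum_univ_three] at h0 h1 h2
    obtain ⟨a0, a1, a2⟩ := key (g.1.1 0 0 - 1) (g.1.1 1 0) (g.1.1 2 0) (by
      rw [map_sub, map_one]
      linear_combination h0)
    obtain ⟨b0, b1, b2⟩ := key (g.1.1 0 1) (g.1.1 1 1 - 1) (g.1.1 2 1) (by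
      rw [map_sub, map_one]
      linear_combination h1)
    obtain ⟨d0, d1, d2⟩ := key (g.1.1 0 2) (g.1.1 1 2) (g.1.1 2 2 - 1) (by
      rw [map_sub, map_one]
      linear_combination h2)
    rw [sub_eq_zero] at a0 b1 d2
    apply Subtype.ext
    apply Subtype.ext
    ext i j
    fin_cases i <;> fin_cases j <;> simp [a0, a1, a2, b0, b1, b2, d0, d1, d2]
  have hinj : Function.Injective ρ := by
    rw [injective_iff_map_eq_one]
    intro g hg
    refine hone L ((algebraMap k L).comp (algebraMap F k)) X hR.h3 hR.c01 hR.c12 hR.c20 g ?_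
    intro i
    have h1 := C.act_X g i
    rw [hg, AlgEquiv.one_apply] at h1
    exact h1.symm
  refine ⟨hinj, C.tr, ?_, ?_⟩
  · intro z
    refine ⟨C.fixed z, ?_⟩
    have hK : IntermediateField.adjoin k {t} ≤ IntermediateField.fixedField ρ.range := by
      rw [IntermediateField.adjoin_simple_le_iff]
      rintro ⟨τ, g, rfl⟩
      exact C.act_t g
    intro hz g
    exact hK hz ⟨ρ g, g, rfl⟩
  · intro Q ht g hg
    have ht' : Q.Ge t 0 := Or.inr ht
    have hX : ∀ i, Q.Ge (X i) 0 := fun i => unk_int Q hq2 ht' (hR.rel i)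
    choose u hu using fun i => UnkR.ex (hX i)
    have h3 : u 0 * u 2 ^ (q ^ 3) + u 2 * u 0 ^ (q ^ 3) - u 1 ^ (q ^ 3 + 1) = 1 := by
      have e1 := (((hu 0).mul ((hu 2).pow (q ^ 3))).add ((hu 2).mul ((hu 0).pow (q ^ 3)))).sub
        ((hu 1).pow (q ^ 3 + 1))
      rw [hR.h3] at e1
      exact e1.uniq UnkR.one
    have c01 : u 0 * u 1 ^ (q ^ 2) - u 1 * u 0 ^ (q ^ 2) = u 0 ^ q := by
      have e1 := ((hu 0).mul ((hu 1).pow (q ^ 2))).sub ((hu 1).mul ((hu 0).pow (q ^ 2)))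
      rw [hR.c01] at e1
      exact e1.uniq ((hu 0).pow q)
    have c12 : u 1 * u 2 ^ (q ^ 2) - u 2 * u 1 ^ (q ^ 2) = u 2 ^ q := by
      have e1 := ((hu 1).mul ((hu 2).pow (q ^ 2))).sub ((hu 2).mul ((hu 1).pow (q ^ 2)))
      rw [hR.c12] at e1
      exact e1.uniq ((hu 2).pow q)
    have c20 : u 2 * u 0 ^ (q ^ 2) - u 0 * u 2 ^ (q ^ 2) = -u 1 ^ q := by
      have e1 := ((hu 2).mul ((hu 0).pow (q ^ 2))).sub ((hu 0).mul ((hu 2).pow (q ^ 2)))
      rw [hR.c20] at e1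
      exact e1.uniq (((hu 1).pow q).neg)
    refine hone k (algebraMap F k) u h3 c01 c12 c20 g ?_
    intro i
    have e1 := (hu i).fix hg
    rw [C.act_X g i, Fin.sum_univ_three] at e1
    have e2 : ∀ j, UnkR Q (cst k F L (g.1.1 j i) * X j) (algebraMap F k (g.1.1 j i) * u j) :=
      fun j => (UnkR.cst _).mul (hu j)
    rw [Fin.sum_univ_three]
    exact (((e2 0).add (e2 1)).add (e2 2)).uniq e1

end Pool.CND
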